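import Pool.Agent.R293.DK.Enc

/-!
MP_7f766c_an, Q1 (negative answer): two piecewise conjugate classical multivariable dynamical
systems, on a compact metrizable space and with four maps each, whose `C*`-correspondences are not
unitarily equivalent.
-/

set_option autoImplicit false

noncomputable section

namespace Pool.Agent.Results.MP_7f766c_an.PiecewiseNotUnitary

variable {n : ℕ}

/-- Piecewise conjugacy of two systems of `n` maps: a homeomorphism `γ : X → Y` and an open cover
`W π` of `X` indexed by the permutations with `τ i ∘ γ = γ ∘ σ (π i)` on `W π`. -/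
def PiecewiseConjugate {X Y : Type} [TopologicalSpace X] [TopologicalSpace Y]
    (σ : Fin n → C(X, X)) (τ : Fin n → C(Y, Y)) : Prop :=
  ∃ (γ : X ≃ₜ Y) (W : Equiv.Perm (Fin n) → Set X), (∀ π, IsOpen (W π)) ∧ (⋃ π, W π) = Set.univ ∧
    ∀ π, ∀ x ∈ W π, ∀ i, τ i (γ x) = γ (σ (π i) x)

/-- The inner product of the Hilbert module `C(X)ⁿ`: `⟨ξ, η⟩ = ∑ ξᵢ* ηᵢ`. -/
def inner {X : Type} [TopologicalSpace X] (ξ η : Fin n → C(X, ℂ)) : C(X, ℂ) :=
  ∑ i, star (ξ i) * η i

/-- The left action of `C(X)` on the correspondence of the system `σ`: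
`(φ(a) ξ)ᵢ = (a ∘ σᵢ) ξᵢ`. -/
def leftAct {X : Type} [TopologicalSpace X] (σ : Fin n → C(X, X)) (a : C(X, ℂ))
    (ξ : Fin n → C(X, ℂ)) : Fin n → C(X, ℂ) :=
  fun i => a.comp (σ i) * ξ i

/-- Unitary equivalence of the `C*`-correspondences of two systems on compact spaces: a
`*`-isomorphism `ρ : C(X) → C(Y)` and a surjective linear map `U : C(X)ⁿ → C(Y)ⁿ` compatible with
the inner products and with the left actions. -/
def UnitarilyEquivalent {X Y : Type} [TopologicalSpace X] [CompactSpace X] [TopologicalSpace Y]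
    [CompactSpace Y] (σ : Fin n → C(X, X)) (τ : Fin n → C(Y, Y)) : Prop :=
  ∃ (ρ : C(X, ℂ) ≃⋆ₐ[ℂ] C(Y, ℂ)) (U : (Fin n → C(X, ℂ)) →ₗ[ℂ] (Fin n → C(Y, ℂ))),
    Function.Surjective U ∧ (∀ ξ η, inner (U ξ) (U η) = ρ (inner ξ η)) ∧
    ∀ a ξ, U (leftAct σ a ξ) = leftAct τ (ρ a) (U ξ)

/-- There are two piecewise conjugate systems of four continuous maps on a compact metrizable
space whose correspondences are not unitarily equivalent. -/
theorem result : ∃ (X : Type) (_ : TopologicalSpace X) (_ : CompactSpace X)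
    (_ : TopologicalSpace.MetrizableSpace X) (σ τ : Fin 4 → C(X, X)),
    PiecewiseConjugate σ τ ∧ ¬ UnitarilyEquivalent σ τ := by
  refine ⟨R293.DK.XX, inferInstance, inferInstance, inferInstance, R293.DK.fS, R293.DK.fT, ?_, ?_⟩
  · refine ⟨Homeomorph.refl _, R293.DK.WW, R293.DK.WW_open, ?_, ?_⟩
    · exact Set.eq_univ_of_forall fun y => Set.mem_iUnion.2 (R293.DK.WW_cover y)
    · intro π x hx i
      exact R293.DK.WW_conj π x hx i
  · rintro ⟨ρ, U, -, hU, hL⟩
    exact R293.DK.no_equiv ρ U hU hL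

end Pool.Agent.Results.MP_7f766c_an.PiecewiseNotUnitary
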